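import Mathlib

/-!
# A two-cycle of the gamma-graph operator

There are two non-isomorphic graphs `G`, `H` on eleven vertices, each of domination number three,
such that the gamma-graph of `G` is isomorphic to `H` and the gamma-graph of `H` is isomorphic
to `G`.
-/

set_option autoImplicit false

namespace Pool.Agent.Results.MP_b9dfd5_co.TwoCycle

/-- `S` is a dominating set of `G`: every vertex outside `S` has a neighbour in `S`. -/
def IsDominating {V : Type*} (G : SimpleGraph V) (S : Finset V) : Prop :=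
  ∀ v, v ∉ S → ∃ w ∈ S, G.Adj w v

/-- The domination number: the least size of a dominating set. -/
noncomputable def domNum {V : Type*} (G : SimpleGraph V) : ℕ :=
  sInf {k | ∃ S : Finset V, IsDominating G S ∧ S.card = k}

/-- The gamma-sets of `G`: the dominating sets of size `domNum G`. -/
def GammaSet {V : Type*} (G : SimpleGraph V) : Type _ :=
  {S : Finset V // IsDominating G S ∧ S.card = domNum G}

/-- The gamma-graph of `G`: its vertices are the gamma-sets of `G`, and two distinct gamma-sets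
`S`, `T` are adjacent when `T = (S \ {u}) ∪ {v}` for some `u ∈ S`, `v ∈ T` with `uv` an edge
of `G`. -/
def gammaGraph {V : Type*} [DecidableEq V] (G : SimpleGraph V) : SimpleGraph (GammaSet G) where
  Adj S T := S.1 ≠ T.1 ∧ ∃ u ∈ S.1, ∃ v ∈ T.1, G.Adj u v ∧ T.1 = insert v (S.1.erase u)
  symm := ⟨by
    rintro S T ⟨hne, u, hu, v, hv, huv, hT⟩
    refine ⟨hne.symm, v, hv, u, hu, huv.symm, ?_⟩
    have huv' : u ≠ v := huv.ne
    have hvS : v ∉ S.1 := by
      intro hvS
      have h1 : insert v (S.1.erase u) = S.1.erase u :=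
        Finset.insert_eq_of_mem (Finset.mem_erase.2 ⟨huv'.symm, hvS⟩)
      have h2 : T.1.card = S.1.card := by rw [T.2.2, S.2.2]
      rw [hT, h1, Finset.card_erase_of_mem hu] at h2
      have : 0 < S.1.card := Finset.card_pos.2 ⟨u, hu⟩
      omega
    rw [hT, Finset.erase_insert (fun h => hvS (Finset.mem_of_mem_erase h)),
      Finset.insert_erase hu]⟩
  loopless := ⟨fun S h => h.1 rfl⟩

/-- Edge list of the first graph. -/
def edgesG : List (Fin 11 × Fin 11) :=
  [(0,2),(0,5),(0,6),(1,2),(1,3),(2,3),(2,5),(2,6),(3,4),(4,10),(5,6),(6,8),(6,9),(7,8),(7,10),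
    (8,9),(8,10)]

/-- Edge list of the second graph. -/
def edgesH : List (Fin 11 × Fin 11) :=
  [(0,5),(0,8),(1,2),(1,4),(1,5),(2,3),(2,4),(2,5),(3,9),(4,5),(5,8),(6,7),(6,8),(7,8),(7,9),
    (7,10),(9,10)]

/-- The graph on eleven vertices with a given list of edges. -/
def ofList (L : List (Fin 11 × Fin 11)) : SimpleGraph (Fin 11) :=
  SimpleGraph.fromRel (fun a b => (a, b) ∈ L)

instance (L : List (Fin 11 × Fin 11)) : DecidableRel (ofList L).Adj := by
  intro a b
  unfold ofList
  rw [SimpleGraph.fromRel_adj]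
  infer_instance

/-- The first graph. -/
def G : SimpleGraph (Fin 11) := ofList edgesG

/-- The second graph. -/
def H : SimpleGraph (Fin 11) := ofList edgesH

instance : DecidableRel G.Adj := inferInstanceAs (DecidableRel (ofList edgesG).Adj)
instance : DecidableRel H.Adj := inferInstanceAs (DecidableRel (ofList edgesH).Adj)

instance {V : Type*} [Fintype V] [DecidableEq V] (K : SimpleGraph V) [DecidableRel K.Adj]
    (S : Finset V) : Decidable (IsDominating K S) := by
  unfold IsDominating
  infer_instance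

/-- The gamma-sets of `G`, listed in the order of an isomorphism with `H`. -/
def setsG : Fin 11 → Finset (Fin 11) :=
  ![{3,6,7}, {0,3,8}, {2,3,8}, {2,4,8}, {3,5,8}, {3,6,8}, {1,6,10}, {2,6,10}, {3,6,10}, {2,8,10},
    {2,9,10}]

/-- The gamma-sets of `H`, listed in the order of an isomorphism with `G`. -/
def setsH : Fin 11 → Finset (Fin 11) :=
  ![{1,8,9}, {5,6,9}, {5,8,9}, {5,7,9}, {3,5,7}, {4,8,9}, {2,8,9}, {0,2,7}, {2,7,8}, {2,8,10},
    {2,5,7}]

/-- `{a, b, c}` is dominating, as a boolean. -/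
def dom3 (K : SimpleGraph (Fin 11)) [DecidableRel K.Adj] (a b c : Fin 11) : Bool :=
  decide (∀ v, (v = a ∨ v = b ∨ v = c) ∨ (K.Adj a v ∨ K.Adj b v ∨ K.Adj c v))

set_option maxRecDepth 100000 in
lemma allG : ∀ a b c : Fin 11, dom3 G a b c = true →
    ∃ i, setsG i = ({a, b, c} : Finset (Fin 11)) := by
  decide +kernel

set_option maxRecDepth 100000 in
lemma allH : ∀ a b c : Fin 11, dom3 H a b c = true →
    ∃ i, setsH i = ({a, b, c} : Finset (Fin 11)) := by
  decide +kernel

lemma noG : ∀ a b : Fin 11, ¬ IsDominating G {a, b} := by decide +kernel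

lemma noH : ∀ a b : Fin 11, ¬ IsDominating H {a, b} := by decide +kernel

lemma isG : ∀ i, IsDominating G (setsG i) ∧ (setsG i).card = 3 := by decide +kernel

lemma isH : ∀ i, IsDominating H (setsH i) ∧ (setsH i).card = 3 := by decide +kernel

lemma domNum_eq (K : SimpleGraph (Fin 11)) (hex : ∃ S : Finset (Fin 11), IsDominating K S ∧
    S.card = 3) (hno : ∀ a b : Fin 11, ¬ IsDominating K {a, b}) : domNum K = 3 := by
  apply le_antisymm (Nat.sInf_le hex)
  refine le_csInf ⟨3, hex⟩ ?_
  rintro k ⟨S, hS, rfl⟩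
  by_contra hlt
  obtain ⟨T, hST, hT⟩ := Finset.exists_superset_card_eq (s := S) (n := 2) (by omega) (by simp)
  obtain ⟨a, b, -, rfl⟩ := Finset.card_eq_two.1 hT
  apply hno a b
  intro v hv
  obtain ⟨w, hw, hadj⟩ := hS v (fun h => hv (hST h))
  exact ⟨w, hST hw, hadj⟩

lemma domG : domNum G = 3 := domNum_eq G ⟨_, isG 0⟩ noG

lemma domH : domNum H = 3 := domNum_eq H ⟨_, isH 0⟩ noH

lemma dom3_of {K : SimpleGraph (Fin 11)} [DecidableRel K.Adj] {a b c : Fin 11}
    (h : IsDominating K {a, b, c}) : dom3 K a b c = true := by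
  unfold dom3
  rw [decide_eq_true_iff]
  intro v
  by_cases hv : v ∈ ({a, b, c} : Finset (Fin 11))
  · left
    simpa using hv
  · right
    obtain ⟨w, hw, hadj⟩ := h v hv
    simp only [Finset.mem_insert, Finset.mem_singleton] at hw
    rcases hw with rfl | rfl | rfl
    · exact Or.inl hadj
    · exact Or.inr (Or.inl hadj)
    · exact Or.inr (Or.inr hadj)

lemma injG : Function.Injective setsG := by
  have h : ∀ i j, setsG i = setsG j → i = j := by decide +kernel
  exact fun i j => h i j

lemma injH : Function.Injective setsH := by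
  have h : ∀ i j, setsH i = setsH j → i = j := by decide +kernel
  exact fun i j => h i j

lemma adjG : ∀ i j, H.Adj i j ↔ (setsG i ≠ setsG j ∧ ∃ u ∈ setsG i, ∃ v ∈ setsG j,
    G.Adj u v ∧ setsG j = insert v ((setsG i).erase u)) := by
  decide +kernel

lemma adjH : ∀ i j, G.Adj i j ↔ (setsH i ≠ setsH j ∧ ∃ u ∈ setsH i, ∃ v ∈ setsH j,
    H.Adj u v ∧ setsH j = insert v ((setsH i).erase u)) := by
  decide +kernel

/-- The gamma-graph of `G` is isomorphic to `H`. -/
lemma isoG : Nonempty (gammaGraph G ≃g H) := by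
  have hb : Function.Bijective (fun i : Fin 11 =>
      (⟨setsG i, (isG i).1, by rw [domG]; exact (isG i).2⟩ : GammaSet G)) := by
    constructor
    · intro i j hij
      exact injG (congrArg Subtype.val hij)
    · rintro ⟨S, hS, hc⟩
      rw [domG] at hc
      obtain ⟨a, b, c, -, -, -, rfl⟩ := Finset.card_eq_three.1 hc
      obtain ⟨i, hi⟩ := allG a b c (dom3_of hS)
      exact ⟨i, Subtype.ext hi⟩
  refine ⟨RelIso.symm ⟨Equiv.ofBijective _ hb, ?_⟩⟩
  intro i j
  exact (adjG i j).symm

/-- The gamma-graph of `H` is isomorphic to `G`. -/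
lemma isoH : Nonempty (gammaGraph H ≃g G) := by
  have hb : Function.Bijective (fun i : Fin 11 =>
      (⟨setsH i, (isH i).1, by rw [domH]; exact (isH i).2⟩ : GammaSet H)) := by
    constructor
    · intro i j hij
      exact injH (congrArg Subtype.val hij)
    · rintro ⟨S, hS, hc⟩
      rw [domH] at hc
      obtain ⟨a, b, c, -, -, -, rfl⟩ := Finset.card_eq_three.1 hc
      obtain ⟨i, hi⟩ := allH a b c (dom3_of hS)
      exact ⟨i, Subtype.ext hi⟩
  refine ⟨RelIso.symm ⟨Equiv.ofBijective _ hb, ?_⟩⟩
  intro i j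
  exact (adjH i j).symm

lemma not_iso : ¬ Nonempty (G ≃g H) := by
  rintro ⟨e⟩
  have h5 : ∀ v, H.degree v = 5 → v = 5 := by decide +kernel
  have h2 : e 2 = 5 := h5 _ ((e.degree_eq 2).trans (by decide +kernel))
  have h6 : e 6 = 5 := h5 _ ((e.degree_eq 6).trans (by decide +kernel))
  have : (2 : Fin 11) = 6 := e.injective (h2.trans h6.symm)
  exact absurd this (by decide)

/-- **Main theorem.** There are two non-isomorphic finite simple graphs (on eleven vertices each)
such that the gamma-graph of each is isomorphic to the other one. -/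
theorem result : ∃ G H : SimpleGraph (Fin 11), ¬ Nonempty (G ≃g H) ∧
    Nonempty (gammaGraph G ≃g H) ∧ Nonempty (gammaGraph H ≃g G) :=
  ⟨G, H, not_iso, isoG, isoH⟩

end Pool.Agent.Results.MP_b9dfd5_co.TwoCycle
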